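import Pool.Agent.H29.LG.Targets

/-!
# Board `lgx_modules`, row CNTK: lattice points in a thin neighbourhood of a line
-/

set_option autoImplicit false

namespace Pool.Agent.H86.LG

open NumberField Height Finset Polynomial Pool.Agent.H24.RD Pool.Agent.H23.RDD Pool.Agent.H29.RQ
  Pool.Agent.H29.SX Pool.Agent.H29.LG

theorem pf_CNTK : T_CNTK := by
  classical
  intro r
  have hr0 : (0 : ℝ) ≤ r := Nat.cast_nonneg _
  refine ⟨1 / (2 * (4 * (r + 1)) ^ r), by positivity, ?_⟩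
  intro lam H σ ξ hlam hH hσ
  obtain ⟨A, hA⟩ : ∃ A : ℝ, A = σ / (2 * (r + 1) * H) := ⟨_, rfl⟩
  have hA0 : 0 < A := by rw [hA]; positivity
  obtain ⟨M, hM⟩ : ∃ M : ℕ, M = ⌈A⌉₊ := ⟨_, rfl⟩
  have hAM : A ≤ M := by rw [hM]; exact Nat.le_ceil _
  have hM0 : (0 : ℝ) < M := lt_of_lt_of_le hA0 hAM
  obtain ⟨n, hn⟩ : ∃ n : ℕ, n = ⌊(M : ℝ) / A⌋₊ + 1 := ⟨_, rfl⟩
  have hn0 : (0 : ℝ) < n := by rw [hn]; push_cast; positivity
  have hn1 : (n : ℝ) ≤ (M + A) / A := by
    have h1 : (⌊(M : ℝ) / A⌋₊ : ℝ) ≤ M / A := Nat.floor_le (by positivity)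
    rw [hn, add_div, div_self hA0.ne']
    push_cast
    linarith
  obtain ⟨P, hP⟩ : ∃ P : ℕ, P = ⌊σ / (2 * lam)⌋₊ := ⟨_, rfl⟩
  have hP1 : (P : ℝ) ≤ σ / (2 * lam) := by rw [hP]; exact Nat.floor_le (by positivity)
  have hP2 : σ / (2 * lam) < P + 1 := by rw [hP]; exact Nat.lt_floor_add_one _
  obtain ⟨xx, hxx⟩ : ∃ xx : ℕ × (Fin r → ℕ) → Fin r → ℝ, xx = fun k i =>
      (k.2 i : ℝ) + 1 - Int.fract ((k.1 : ℝ) * ξ i) := ⟨_, rfl⟩
  obtain ⟨idx, hidx⟩ : ∃ idx : ℕ × (Fin r → ℕ) → Fin r → ℕ, idx = fun k i =>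
      ⌊xx k i / A⌋₊ := ⟨_, rfl⟩
  obtain ⟨s, hs⟩ : ∃ s : Finset (ℕ × (Fin r → ℕ)), s = Finset.range (P + 1) ×ˢ
      Fintype.piFinset (fun _ : Fin r => Finset.range M) := ⟨_, rfl⟩
  have hxx0 : ∀ k i, 0 ≤ xx k i := by
    intro k i
    rw [hxx]
    have h1 := Int.fract_lt_one ((k.1 : ℝ) * ξ i)
    have h2 : (0 : ℝ) ≤ k.2 i := Nat.cast_nonneg _
    show 0 ≤ (k.2 i : ℝ) + 1 - Int.fract ((k.1 : ℝ) * ξ i)
    linarith
  have hmaps : ∀ k ∈ s, idx k ∈ Fintype.piFinset (fun _ : Fin r => Finset.range n) := by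
    intro k hk
    rw [hs, mem_product, Fintype.mem_piFinset] at hk
    rw [Fintype.mem_piFinset]
    intro i
    rw [Finset.mem_range, hidx, hn, Nat.lt_succ_iff]
    show ⌊xx k i / A⌋₊ ≤ _
    refine Nat.floor_le_floor ?_
    refine div_le_div_of_nonneg_right ?_ hA0.le
    have h1 : k.2 i + 1 ≤ M := Finset.mem_range.1 (hk.2 i)
    have h2 : ((k.2 i : ℕ) : ℝ) + 1 ≤ M := by exact_mod_cast h1
    have h3 := Int.fract_nonneg ((k.1 : ℝ) * ξ i)
    rw [hxx]
    show (k.2 i : ℝ) + 1 - Int.fract ((k.1 : ℝ) * ξ i) ≤ M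
    linarith
  have hcardt : (Fintype.piFinset (fun _ : Fin r => Finset.range n)).card = n ^ r := by
    rw [Fintype.card_piFinset]
    simp
  have hcards : s.card = (P + 1) * M ^ r := by
    rw [hs, card_product, card_range, Fintype.card_piFinset]
    simp
  have hne : (Fintype.piFinset (fun _ : Fin r => Finset.range n)).Nonempty := by
    rw [← Finset.card_pos, hcardt]
    have : 0 < n := by exact_mod_cast hn0
    positivity
  have hb : ((Fintype.piFinset (fun _ : Fin r => Finset.range n)).card) •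
      ((((P : ℝ) + 1) * (M : ℝ) ^ r) / (n : ℝ) ^ r) ≤ (s.card : ℝ) := by
    rw [hcardt, nsmul_eq_mul, hcards]
    push_cast
    have : (n : ℝ) ^ r ≠ 0 := by positivity
    rw [mul_div_cancel₀ _ this]
  obtain ⟨y, -, hy⟩ := Finset.exists_le_card_fiber_of_nsmul_le_card_of_maps_to hmaps hne hb
  obtain ⟨T, hT⟩ : ∃ T : Finset (ℕ × (Fin r → ℕ)), T = s.filter fun k => idx k = y := ⟨_, rfl⟩
  rw [← hT] at hy
  have hT0 : 0 < T.card := by
    have h1 : (0 : ℝ) < (((P : ℝ) + 1) * (M : ℝ) ^ r) / (n : ℝ) ^ r := by positivity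
    have h2 : (0 : ℝ) < (T.card : ℝ) := lt_of_lt_of_le h1 hy
    exact_mod_cast h2
  obtain ⟨k0, hk0⟩ := Finset.card_pos.1 hT0
  rw [hT, Finset.mem_filter] at hk0
  obtain ⟨av, hav⟩ : ∃ av : ℕ × (Fin r → ℕ) → Fin (r + 1) → ℤ, av = fun k =>
      (Fin.cons ((k.1 : ℤ) - (k0.1 : ℤ)) (fun i : Fin r =>
        (⌊(k.1 : ℝ) * ξ i⌋ + k.2 i) - (⌊(k0.1 : ℝ) * ξ i⌋ + k0.2 i)) : Fin (r + 1) → ℤ) :=
    ⟨_, rfl⟩
  have hav0 : ∀ k, av k 0 = (k.1 : ℤ) - k0.1 := by
    intro k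
    rw [hav]
    rfl
  have havs : ∀ k (i : Fin r), av k i.succ =
      (⌊(k.1 : ℝ) * ξ i⌋ + k.2 i) - (⌊(k0.1 : ℝ) * ξ i⌋ + k0.2 i) := by
    intro k i
    rw [hav]
    rfl
  refine ⟨T.image av, ?_, ?_⟩
  · intro a ha
    obtain ⟨k, hk, rfl⟩ := Finset.mem_image.1 ha
    rw [hT, Finset.mem_filter] at hk
    have hks := hk.1
    have hk0s := hk0.1
    rw [hs, mem_product] at hks hk0s
    unfold nrm
    have h1 : |((av k 0 : ℤ) : ℝ)| ≤ P := by
      rw [hav0]
      push_cast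
      have e1 : (k.1 : ℝ) ≤ P := by
        have := Finset.mem_range.1 hks.1
        exact_mod_cast Nat.lt_succ_iff.1 this
      have e2 : (k0.1 : ℝ) ≤ P := by
        have := Finset.mem_range.1 hk0s.1
        exact_mod_cast Nat.lt_succ_iff.1 this
      have e3 : (0 : ℝ) ≤ k.1 := Nat.cast_nonneg _
      have e4 : (0 : ℝ) ≤ k0.1 := Nat.cast_nonneg _
      rw [abs_le]
      constructor <;> linarith
    have h2 : ∀ i : Fin r, |((av k i.succ : ℤ) : ℝ) - (av k 0 : ℤ) * ξ i| ≤ A := by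
      intro i
      have e1 : ((av k i.succ : ℤ) : ℝ) - (av k 0 : ℤ) * ξ i = xx k i - xx k0 i := by
        rw [havs, hav0, hxx]
        have f1 := Int.floor_add_fract ((k.1 : ℝ) * ξ i)
        have f2 := Int.floor_add_fract ((k0.1 : ℝ) * ξ i)
        push_cast
        linarith
      have e2 : ⌊xx k i / A⌋₊ = ⌊xx k0 i / A⌋₊ := by
        have g1 := congrFun (hk.2.trans hk0.2.symm) i
        rw [hidx] at g1
        exact g1
      rw [e1, abs_le]
      have g1 := Nat.floor_le (div_nonneg (hxx0 k i) hA0.le)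
      have g2 := Nat.lt_floor_add_one (xx k i / A)
      have g3 := Nat.floor_le (div_nonneg (hxx0 k0 i) hA0.le)
      have g4 := Nat.lt_floor_add_one (xx k0 i / A)
      rw [e2] at g1 g2
      have g5 : xx k i / A - xx k0 i / A ≤ 1 := by linarith
      have g6 : xx k0 i / A - xx k i / A ≤ 1 := by linarith
      rw [← sub_div, div_le_iff₀ hA0] at g5 g6
      constructor <;> linarith
    have h3 : ∑ i : Fin r, |((av k i.succ : ℤ) : ℝ) - (av k 0 : ℤ) * ξ i| ≤ r * A := by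
      refine (Finset.sum_le_sum fun i _ => h2 i).trans ?_
      rw [Finset.sum_const, Finset.card_univ, Fintype.card_fin, nsmul_eq_mul]
    have h4 : |((av k 0 : ℤ) : ℝ)| * lam ≤ σ / 2 := by
      calc |((av k 0 : ℤ) : ℝ)| * lam ≤ (σ / (2 * lam)) * lam :=
            mul_le_mul_of_nonneg_right (h1.trans hP1) hlam.le
        _ = σ / 2 := by field_simp
    have h5 : H * ∑ i : Fin r, |((av k i.succ : ℤ) : ℝ) - (av k 0 : ℤ) * ξ i| ≤ σ / 2 := by
      calc H * ∑ i : Fin r, |((av k i.succ : ℤ) : ℝ) - (av k 0 : ℤ) * ξ i|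
          ≤ H * (r * A) := mul_le_mul_of_nonneg_left h3 hH.le
        _ ≤ H * ((r + 1) * A) := by
            refine mul_le_mul_of_nonneg_left ?_ hH.le
            nlinarith
        _ = σ / 2 := by
            rw [hA]
            field_simp
    linarith
  · have hinj : Set.InjOn av (T : Set (ℕ × (Fin r → ℕ))) := by
      intro k _ k' _ hkk
      have h1 := congrFun hkk 0
      rw [hav0, hav0] at h1
      have h2 : k.1 = k'.1 := by omega
      refine Prod.ext h2 ?_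
      funext i
      have h3 := congrFun hkk i.succ
      rw [havs, havs, h2] at h3
      omega
    rw [Finset.card_image_of_injOn hinj]
    refine le_trans ?_ hy
    have h1 : A / 2 ≤ M / n := by
      rw [div_le_div_iff₀ two_pos hn0]
      have h2 : A * (n : ℝ) ≤ M + A := by
        calc A * (n : ℝ) ≤ A * ((M + A) / A) := mul_le_mul_of_nonneg_left hn1 hA0.le
          _ = M + A := by field_simp
      linarith
    have h2 : (A / 2) ^ r ≤ (M / n : ℝ) ^ r := pow_le_pow_left₀ (by positivity) h1 r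
    have h3 : A / 2 = σ / (4 * (r + 1) * H) := by
      rw [hA]
      field_simp
      norm_num
    calc 1 / (2 * (4 * ((r : ℝ) + 1)) ^ r) * σ ^ (r + 1) / (lam * H ^ r)
        = (σ / (2 * lam)) * (A / 2) ^ r := by
          rw [h3, div_pow, mul_pow (4 * ((r : ℝ) + 1)) H, pow_succ]
          field_simp
      _ ≤ (P + 1) * (M / n : ℝ) ^ r := by
          refine mul_le_mul hP2.le h2 (by positivity) (by positivity)
      _ = (((P : ℝ) + 1) * (M : ℝ) ^ r) / (n : ℝ) ^ r := by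
          rw [div_pow]
          ring

end Pool.Agent.H86.LG
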