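import Pool.Agent.H29.LG.Targets

/-!
# Board `lgx_modules`, row DPM: the determinant inequality for jets and values
-/

set_option autoImplicit false

namespace Pool.Agent.H86.LG

open NumberField Height Finset Polynomial Pool.Agent.H24.RD Pool.Agent.H23.RDD Pool.Agent.H29.RQ
  Pool.Agent.H29.SX Pool.Agent.H29.LG

theorem pf_DPM (h1 : T_PAD) (h2 : T_DETM) : T_DPM := by
  intro M _ _ r t R a ν haν pr G hG nn uA γA κA wB γB hwB hli hker
  refine h2 M a ν R pr (fun i => t * G i)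
    (fun i j => jc M (κA i) (nn j) * pt (γA i) (uA i) (nn j))
    (fun i j => pt (γB i) (wB i) (nn j)) haν
    (fun i => ⟨(hG i).1, mul_nonneg (Nat.cast_nonneg t) (hG i).2⟩) hli ?_
  intro i v hvp x hx hxA b hb
  obtain ⟨γ0, U, hU, hγ, hdch, hjet⟩ := hker i v hvp
  have hna : IsNonarchimedean v.1 := fun x y => FinitePlace.add_le v x y
  have hp0 : (pr i : M) ≠ 0 := by exact_mod_cast (hG i).1.ne_zero
  have hvp0 : 0 < v.1 (pr i : M) := v.1.pos hp0
  have hRpos : 0 < R := by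
    have := i.pos
    omega
  have hb0 : 0 ≤ b := le_trans (v.1.nonneg _) (hb ⟨0, hRpos⟩)
  have hval : ∀ j, v.1 (pt (γB i) (wB i) (nn j)) = v.1 (wB i) ^ (nn j 0) := by
    intro j
    unfold pt
    rw [map_mul, map_zpow₀, map_prod]
    rw [Finset.prod_eq_one, mul_one]
    intro l _
    rw [map_zpow₀, (hγ l).2.1, one_zpow]
  have h3 := h1 M v.1 hna r t R nn γ0 (γB i) (wB i) U (v.1 (pr i : M) ^ G i)
    (Real.rpow_pos_of_pos hvp0 (G i)) (Real.rpow_le_one hvp0.le hvp.le (hG i).2)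
    (fun l => (hγ l).1) (fun l => (hγ l).2.1) (fun l => (hγ l).2.2) (hwB i) hU hdch x hx
    (hjet x hxA) b hb0 (fun j => by rw [← hval j]; exact hb j)
  have h4 : (v.1 (pr i : M) ^ G i) ^ t = v.1 (pr i : M) ^ ((t : ℝ) * G i) := by
    rw [mul_comm, Real.rpow_mul hvp0.le, Real.rpow_natCast]
  rw [h4] at h3
  exact h3

end Pool.Agent.H86.LG
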