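import Pool.Agent.H29.LG.Targets

/-!
# Board `lgx_modules`, row KGA: the Kummer group is large
-/

set_option autoImplicit false

namespace Pool.Agent.H86.LG

open NumberField Height Finset Polynomial Pool.Agent.H24.RD Pool.Agent.H23.RDD Pool.Agent.H29.RQ
  Pool.Agent.H29.SX Pool.Agent.H29.LG

theorem pow_val_nat' {M : Type} [Field M] {q : ℕ} [NeZero q] {ζ : M} (hζ : ζ ^ q = 1) (k : ℕ) :
    ζ ^ ((k : ZMod q).val) = ζ ^ k := by
  rw [ZMod.val_natCast]
  conv_rhs => rw [← Nat.div_add_mod k q, pow_add, pow_mul, hζ, one_pow, one_mul]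

theorem pow_val_add' {M : Type} [Field M] {q : ℕ} [NeZero q] {ζ : M} (hζ : ζ ^ q = 1)
    (a b : ZMod q) : ζ ^ ((a + b).val) = ζ ^ a.val * ζ ^ b.val := by
  rw [ZMod.val_add, ← pow_add]
  conv_rhs => rw [← Nat.div_add_mod (a.val + b.val) q, pow_add, pow_mul, hζ, one_pow, one_mul]

theorem pf_KGA (h1 : T_SEP) (h2 : T_KTA) : T_KGA := by
  classical
  intro F Ω _ _ _ _ _ _ _ r γ hγ
  obtain ⟨i₀, hi₀, hKT⟩ := h2 F Ω r γ hγ
  refine ⟨i₀, hi₀, ?_⟩
  intro N hN ζ T hζ hT b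
  have : NeZero N := ⟨hN.ne'⟩
  have hζq : ζ ^ N = 1 := hζ.pow_eq_one
  have hζ0 : ζ ≠ 0 := hζ.ne_zero hN.ne'
  have hT0 : ∀ i, T i ≠ 0 := by
    intro i h
    have h3 := hT i
    rw [h, zero_pow hN.ne'] at h3
    exact hγ.1 i ((map_eq_zero _).1 h3.symm)
  have : IsAlgClosure F Ω := ⟨inferInstance, inferInstance⟩
  have : Normal F Ω := IsAlgClosure.normal F Ω
  have : IsGalois F Ω := IsGalois.mk
  obtain ⟨L₁, hL₁⟩ : ∃ L₁ : IntermediateField F Ω, L₁ = Lv F Ω γ N 1 := ⟨_, rfl⟩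
  rw [← hL₁]
  have hζL : ζ ∈ L₁ := by
    rw [hL₁]
    exact IntermediateField.subset_adjoin F _ (Or.inl hζq)
  have hgζ : ∀ g ∈ L₁.fixingSubgroup, g ζ = ζ := by
    intro g hg
    rw [IntermediateField.mem_fixingSubgroup_iff] at hg
    exact hg ζ hζL
  -- the action on the roots
  have hact : ∀ g : Ω ≃ₐ[F] Ω, ∀ i, ∃ k : ZMod N, g (T i) = ζ ^ k.val * T i := by
    intro g i
    have h3 : (g (T i) / T i) ^ N = 1 := by
      rw [div_pow, ← map_pow, hT, AlgEquiv.commutes, ← hT, div_self (pow_ne_zero _ (hT0 i))]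
    obtain ⟨k, -, hk2⟩ := hζ.eq_pow_of_pow_eq_one h3
    refine ⟨(k : ZMod N), ?_⟩
    rw [pow_val_nat' hζq, hk2, div_mul_cancel₀ _ (hT0 i)]
  -- the group of the exponents
  let B : AddSubgroup (Fin r → ZMod N) :=
    { carrier := {b | ∃ g ∈ L₁.fixingSubgroup, ∀ i, g (T i) = ζ ^ (b i).val * T i}
      zero_mem' := ⟨1, one_mem _, fun i => by simp⟩
      add_mem' := by
        rintro b₁ b₂ ⟨g₁, hg₁, h₁⟩ ⟨g₂, hg₂, h₂⟩
        refine ⟨g₁ * g₂, mul_mem hg₁ hg₂, fun i => ?_⟩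
        rw [AlgEquiv.mul_apply, h₂, map_mul, map_pow, hgζ g₁ hg₁, h₁, Pi.add_apply,
          pow_val_add' hζq]
        ring
      neg_mem' := by
        rintro b₁ ⟨g₁, hg₁, h₁⟩
        refine ⟨g₁⁻¹, inv_mem hg₁, fun i => ?_⟩
        have h2 : g₁ (ζ ^ ((-b₁) i).val * T i) = T i := by
          rw [map_mul, map_pow, hgζ g₁ hg₁, h₁, ← mul_assoc, ← pow_val_add' hζq, Pi.neg_apply,
            neg_add_cancel, ZMod.val_zero, pow_zero, one_mul]
        calc g₁⁻¹ (T i) = g₁⁻¹ (g₁ (ζ ^ ((-b₁) i).val * T i)) := by rw [h2]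
          _ = ζ ^ ((-b₁) i).val * T i := by
            rw [← AlgEquiv.mul_apply, inv_mul_cancel]
            rfl }
  have hw : (fun i => ((i₀ * b i : ℕ) : ZMod N)) ∈ B := by
    refine h1 N r hN B _ ?_
    intro x hx
    obtain ⟨y, hy⟩ : ∃ y : Ω, y = ∏ i, T i ^ (x i).val := ⟨_, rfl⟩
    -- `y` is fixed
    have hyfix : ∀ g ∈ L₁.fixingSubgroup, g y = y := by
      intro g hg
      choose k hk using hact g
      have hkB : k ∈ B := ⟨g, hg, hk⟩
      have hsum := hx k hkB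
      have h3 : g y = (∏ i, ζ ^ ((k i).val * (x i).val)) * y := by
        rw [hy, map_prod, ← prod_mul_distrib]
        refine prod_congr rfl fun i _ => ?_
        rw [map_pow, hk, mul_pow, ← pow_mul]
      have h4 : (∏ i, ζ ^ ((k i).val * (x i).val)) = 1 := by
        rw [prod_pow_eq_pow_sum, ← pow_val_nat' hζq]
        have h5 : ((∑ i, (k i).val * (x i).val : ℕ) : ZMod N) = 0 := by
          rw [← hsum]
          push_cast
          refine sum_congr rfl fun i _ => ?_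
          rw [ZMod.natCast_zmod_val, ZMod.natCast_zmod_val, mul_comm]
        rw [h5, ZMod.val_zero, pow_zero]
      rw [h3, h4, one_mul]
    have hyL : y ∈ L₁ := by
      rw [← InfiniteGalois.fixedField_fixingSubgroup L₁, IntermediateField.mem_fixedField_iff]
      exact hyfix
    have hpow : y ^ N = ∏ i, (algebraMap F Ω (γ i)) ^ (((x i).val : ℕ) : ℤ) := by
      rw [hy, ← prod_pow]
      refine prod_congr rfl fun i _ => ?_
      rw [zpow_natCast, ← pow_mul, mul_comm, pow_mul, hT]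
    have hdiv := hKT N hN (fun i => (((x i).val : ℕ) : ℤ)) y (by rw [← hL₁]; exact hyL) hpow
    refine sum_eq_zero fun i _ => ?_
    have h4 : ((i₀ * (x i).val : ℕ) : ZMod N) = 0 := by
      rw [ZMod.natCast_eq_zero_iff]
      have h5 := hdiv i
      have h6 : (i₀ : ℤ) * (((x i).val : ℕ) : ℤ) = ((i₀ * (x i).val : ℕ) : ℤ) := by
        push_cast; ring
      rw [h6] at h5
      exact_mod_cast h5
    have h7 : (x i) = (((x i).val : ℕ) : ZMod N) := (ZMod.natCast_zmod_val _).symm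
    calc x i * ((i₀ * b i : ℕ) : ZMod N)
        = ((i₀ * (x i).val : ℕ) : ZMod N) * (b i : ZMod N) := by
          conv_lhs => rw [h7]
          push_cast
          ring
      _ = 0 := by rw [h4, zero_mul]
  obtain ⟨g, hg, hgT⟩ := hw
  refine ⟨g, ?_, ?_⟩
  · rw [IntermediateField.mem_fixingSubgroup_iff] at hg
    exact hg
  · intro i
    rw [hgT i, pow_val_nat' hζq]

end Pool.Agent.H86.LG
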