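import Pool.Agent.H29.LG.Targets2
import Pool.Agent.H63.SX.MBS

/-!
# Board `lgx_modules`, row LOGS: the theorem over the level fields, the primes of `S` do not count
-/

set_option autoImplicit false

namespace Pool.Agent.H86.LG

open NumberField Height Finset Polynomial Pool.Agent.H24.RD Pool.Agent.H23.RDD Pool.Agent.H29.RQ
  Pool.Agent.H29.SX Pool.Agent.H29.LG Pool.Agent.H63.SX

theorem one_lt_log3 : 1 < Real.log 3 := by
  rw [Real.lt_log_iff_exp_lt (by norm_num)]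
  have := Real.exp_one_lt_d9
  linarith

theorem pf_LOGS (h1 : T_HB) (h2 : T_REDQ) (h3 : T_DSQL) (h4 : T_LOGR) : T_LOGS := by
  intro F Ω _ _ _ _ _ _ _ r γ hγ S hS
  have : Algebra.IsAlgebraic ℚ Ω := Algebra.IsAlgebraic.trans ℚ F Ω
  obtain ⟨hnn, -, -, hpow, -, -, -⟩ := h1 Ω
  obtain ⟨c1, C1, hc1, hds⟩ := h3 F Ω r γ hγ S hS
  obtain ⟨c2, C2, hc2, hfin⟩ := h4 F Ω r γ hγ
  obtain ⟨B, hB⟩ : ∃ B : ℝ, B = 1 + |Real.log c1| + C1 := ⟨_, rfl⟩
  have hB1 : 1 ≤ B := by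
    have h5 := abs_nonneg (Real.log c1)
    have h6 : (0 : ℝ) ≤ C1 := Nat.cast_nonneg _
    linarith
  have hB0 : 0 < B := by linarith
  refine ⟨min c1 (c2 / B ^ C2), C1 + C2, lt_min hc1 (by positivity), ?_⟩
  intro N K k M d hN hK hKM hk hM hd β g hβ hCj hg hβg
  obtain ⟨N₁, a, d₁, hN₁, hKN₁, ha, hd₁, had, hCj₁, hRed₁⟩ := h2 F Ω r γ hγ.1 N K d hN hK hd β hβ hCj
  have hrep : RepD F Ω γ N₁ K d₁ ((β * g) ^ a) :=
    ⟨β ^ a, pow_ne_zero _ hβ, hCj₁, hRed₁, g ^ a, mbs_dv_pow hg _, mul_pow _ _ _⟩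
  have hh : absLogHeight₁ ((β * g) ^ a) = a * absLogHeight₁ (β * g) := hpow _ _
  have hh0 : 0 ≤ absLogHeight₁ (β * g) := hnn _
  have hda : (1 : ℝ) ≤ (a : ℝ) := by exact_mod_cast ha
  have hdd : (1 : ℝ) ≤ (d₁ : ℝ) := by exact_mod_cast hd₁
  have hkk : (1 : ℝ) ≤ (k : ℝ) := by exact_mod_cast hk
  have hadr : (a : ℝ) * d₁ ≤ d := by exact_mod_cast had
  have hd₁d : (d₁ : ℝ) ≤ d := by
    refine le_trans ?_ hadr
    nlinarith
  have hdR : (1 : ℝ) ≤ d := hdd.trans hd₁d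
  obtain ⟨Lam, hLam⟩ : ∃ Lam : ℝ, Lam = Real.log (3 * d * k) := ⟨_, rfl⟩
  have hlog1 : Real.log (3 * d₁) ≤ Lam := by
    rw [hLam]
    apply Real.log_le_log (by positivity)
    nlinarith
  have hlog3 : 1 < Real.log (3 * d₁) := by
    refine lt_of_lt_of_le one_lt_log3 ?_
    apply Real.log_le_log (by norm_num)
    linarith
  have hlog0 : 0 < Real.log (3 * d₁) := by linarith
  have hLam1 : 1 ≤ Lam := by linarith
  have hLam0 : 0 < Lam := by linarith
  rw [← hLam]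
  have hfinal : ∀ C' : ℕ, C' ≤ C1 + C2 → absLogHeight₁ (β * g) * d * Lam ^ C' ≤
      absLogHeight₁ (β * g) * d * Lam ^ (C1 + C2) := by
    intro C' hC'
    refine mul_le_mul_of_nonneg_left (pow_le_pow_right₀ hLam1 hC') ?_
    positivity
  by_cases hcase : absLogHeight₁ ((β * g) ^ a) * (d₁ * (Real.log (3 * d₁)) ^ C1) < c1
  · -- the descent
    obtain ⟨N0, hN0, hN0c, hrest⟩ := hds d₁ hd₁
    obtain ⟨N', K', hN', hK'N', hK'K, hpS, hR⟩ := hrest N₁ K hN₁ hKN₁ _ hrep hcase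
    have hnd : (β * g) ^ a ∉ Dv F Ω γ := fun h =>
      hβg (mbs_dv_of_pow (mul_ne_zero hβ hg.1) _ ha h)
    have hcop : Nat.Coprime K' M := by
      apply Nat.coprime_of_dvd
      intro p hp hpK hpM
      exact hpS p (hM p hp hpM) (hpK.trans hK'N')
    have hK'k : K' ∣ k := hcop.dvd_of_dvd_mul_right (hK'K.trans hKM)
    have hK'0 : 0 < K' := Nat.pos_of_dvd_of_pos hK'N' hN'
    have hK'le : (K' : ℝ) ≤ k := by exact_mod_cast Nat.le_of_dvd hk hK'k
    have h5 := hfin (N0 * N') (N0 * K') d₁ (Nat.mul_pos hN0 hN') (Nat.mul_dvd_mul_left _ hK'N')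
      hd₁ _ hR hnd
    have hN0R : (1 : ℝ) ≤ N0 := by exact_mod_cast hN0
    have hK'R : (1 : ℝ) ≤ K' := by exact_mod_cast hK'0
    have hlogN0 : Real.log N0 ≤ |Real.log c1| + C1 * Lam := by
      have e1 : (N0 : ℝ) ≤ c1⁻¹ * (Real.log (3 * d₁)) ^ C1 := by
        rw [inv_mul_eq_div, le_div_iff₀ hc1]
        linarith
      have e2 : Real.log N0 ≤ Real.log (c1⁻¹ * (Real.log (3 * d₁)) ^ C1) :=
        Real.log_le_log (by linarith) e1
      rw [Real.log_mul (by positivity) (by positivity), Real.log_inv, Real.log_pow] at e2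
      have e3 : Real.log (Real.log (3 * d₁)) ≤ Lam := by
        have := Real.log_le_sub_one_of_pos hlog0
        linarith
      have e4 : (C1 : ℝ) * Real.log (Real.log (3 * d₁)) ≤ C1 * Lam :=
        mul_le_mul_of_nonneg_left e3 (Nat.cast_nonneg _)
      have e5 := neg_abs_le (Real.log c1)
      linarith
    have h6 : Real.log (3 * d₁ * ((N0 * K' : ℕ) : ℝ)) ≤ B * Lam := by
      have e1 : (3 * d₁ * ((N0 * K' : ℕ) : ℝ) : ℝ) = (3 * d₁ * K') * N0 := by
        push_cast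
        ring
      rw [e1, Real.log_mul (by positivity) (by positivity)]
      have e2 : Real.log (3 * d₁ * K') ≤ Lam := by
        rw [hLam]
        apply Real.log_le_log (by positivity)
        exact mul_le_mul (by linarith) hK'le (by positivity) (by positivity)
      have e3 : |Real.log c1| ≤ |Real.log c1| * Lam :=
        le_mul_of_one_le_right (abs_nonneg _) hLam1
      rw [hB]
      linarith
    have h7 : 0 ≤ Real.log (3 * d₁ * ((N0 * K' : ℕ) : ℝ)) := by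
      apply Real.log_nonneg
      have e1 : (3 * d₁ * ((N0 * K' : ℕ) : ℝ) : ℝ) = 3 * (d₁ * (N0 * K')) := by
        push_cast
        ring
      have e2 : (1 : ℝ) ≤ N0 * K' := by nlinarith
      have e3 : (1 : ℝ) ≤ d₁ * (N0 * K') := by nlinarith
      rw [e1]
      linarith
    have h8 : (Real.log (3 * d₁ * ((N0 * K' : ℕ) : ℝ))) ^ C2 ≤ B ^ C2 * Lam ^ C2 := by
      rw [← mul_pow]
      exact pow_le_pow_left₀ h7 h6 C2
    refine (min_le_right _ _).trans ?_
    rw [div_le_iff₀ (by positivity)]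
    calc c2 ≤ absLogHeight₁ ((β * g) ^ a) * d₁ *
          (Real.log (3 * d₁ * ((N0 * K' : ℕ) : ℝ))) ^ C2 := h5
      _ ≤ absLogHeight₁ ((β * g) ^ a) * d₁ * (B ^ C2 * Lam ^ C2) := by
          refine mul_le_mul_of_nonneg_left h8 ?_
          rw [hh]
          positivity
      _ = absLogHeight₁ (β * g) * (a * d₁) * Lam ^ C2 * B ^ C2 := by
          rw [hh]
          ring
      _ ≤ absLogHeight₁ (β * g) * d * Lam ^ C2 * B ^ C2 := by
          gcongr
      _ ≤ absLogHeight₁ (β * g) * d * Lam ^ (C1 + C2) * B ^ C2 :=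
          mul_le_mul_of_nonneg_right (hfinal C2 (Nat.le_add_left _ _)) (by positivity)
  · rw [not_lt] at hcase
    refine (min_le_left _ _).trans ?_
    calc c1 ≤ absLogHeight₁ ((β * g) ^ a) * (d₁ * (Real.log (3 * d₁)) ^ C1) := hcase
      _ = absLogHeight₁ (β * g) * (a * d₁) * (Real.log (3 * d₁)) ^ C1 := by
          rw [hh]
          ring
      _ ≤ absLogHeight₁ (β * g) * d * Lam ^ C1 := by
          gcongr
      _ ≤ absLogHeight₁ (β * g) * d * Lam ^ (C1 + C2) := hfinal C1 (Nat.le_add_right _ _)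

end Pool.Agent.H86.LG
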